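import Mathlib

/-!
# Auxiliary lemmas on gluing involutions (for the statement layer of MP_5e61f3_gt)
-/

open Function
namespace Spg

/-- Auxiliary lemma for `insertMarker`. -/
theorem insert_aux {E E' : Type} [DecidableEq E] (g : E → E) (hg : ∀ e, g (g e) = e)
    (hne : ∀ e, g e ≠ e) (emb : E → E') (inj : Injective emb) (p q : E') (hpq : p ≠ q)
    (hp : ∀ e, emb e ≠ p) (hq : ∀ e, emb e ≠ q) (a : E) (gl : E' → E')
    (cov : ∀ e', (∃ e, e' = emb e) ∨ e' = p ∨ e' = q)
    (hE : ∀ e, gl (emb e) = if e = a then p else if e = g a then q else emb (g e))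
    (h0 : gl p = emb a) (h1 : gl q = emb (g a)) :
    (∀ e, gl (gl e) = e) ∧ (∀ e, gl e ≠ e) := by
  have hne' : ∀ e, e ≠ g e := fun e => (hne e).symm
  constructor
  · intro e'
    rcases cov e' with ⟨e, rfl⟩ | rfl | rfl
    · rw [hE]
      split_ifs with c1 c2
      · rw [h0, c1]
      · rw [h1, c2]
      · rw [hE, if_neg, if_neg, hg]
        · intro h; exact c1 (by rw [← hg e, h, hg])
        · intro h; exact c2 (by rw [← h, hg])
    · rw [h0, hE, if_pos rfl]
    · rw [h1, hE, if_neg (hne a), if_pos rfl]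
  · intro e'
    rcases cov e' with ⟨e, rfl⟩ | rfl | rfl
    · rw [hE]
      split_ifs with c1 c2
      · exact (hp e).symm
      · exact (hq e).symm
      · intro h; exact hne e (inj h)
    · rw [h0]; exact hp a
    · rw [h1]; exact hq _

/-- Auxiliary lemma for `twist`. -/
theorem twist_aux {E E' : Type} [DecidableEq E] (g : E → E) (hg : ∀ e, g (g e) = e)
    (hne : ∀ e, g e ≠ e) (emb : E → E') (inj : Injective emb) (pos : Fin 4 → E')
    (pinj : Injective pos) (hp : ∀ e i, emb e ≠ pos i) (d0 d1 : E) (h01 : d1 ≠ d0)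
    (gl : E' → E') (out : E → E')
    (hout : ∀ e, out e = if e = d0 then pos 1 else if e = d1 then pos 2 else emb e)
    (cov : ∀ e', (∃ e, e' = emb e) ∨ ∃ i, e' = pos i)
    (hE : ∀ e, gl (emb e) = if e = d0 then pos 0 else if e = d1 then pos 3 else out (g e))
    (h0 : gl (pos 0) = emb d0) (h1 : gl (pos 1) = out (g d0)) (h2 : gl (pos 2) = out (g d1))
    (h3 : gl (pos 3) = emb d1) :
    (∀ e, gl (gl e) = e) ∧ (∀ e, gl e ≠ e) := by
  -- `gl (out e)` is what is joined to the outer end of `e`
  have key : ∀ e, gl (out e) = out (g e) := by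
    intro e
    rw [hout e]
    split_ifs with c1 c2
    · rw [h1, c1]
    · rw [h2, c2]
    · rw [hE, if_neg c1, if_neg c2]
  have pne : ∀ {i j : Fin 4}, i ≠ j → pos i ≠ pos j := fun h h' => h (pinj h')
  have outinj : Injective out := by
    intro e e' h
    rw [hout e, hout e'] at h
    split_ifs at h with c1 c2 c3 c4 c5 c6
    · rw [c1, c2]
    · exact absurd h (pne (by decide))
    · exact absurd h.symm (hp _ _)
    · exact absurd h (pne (by decide))
    · rw [c4, c6]
    · exact absurd h.symm (hp _ _)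
    · exact absurd h (hp _ _)
    · exact absurd h (hp _ _)
    · exact inj h
  have out0 : ∀ e, out e ≠ pos 0 := by
    intro e
    rw [hout e]
    split_ifs
    · exact pne (by decide)
    · exact pne (by decide)
    · exact hp _ _
  have out3 : ∀ e, out e ≠ pos 3 := by
    intro e
    rw [hout e]
    split_ifs
    · exact pne (by decide)
    · exact pne (by decide)
    · exact hp _ _
  have out_d0 : out d0 = pos 1 := by rw [hout, if_pos rfl]
  have out_d1 : out d1 = pos 2 := by rw [hout, if_neg h01, if_pos rfl]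
  have cov2 : ∀ e', (∃ e, e' = out e) ∨ e' = pos 0 ∨ e' = pos 3 ∨ e' = emb d0 ∨ e' = emb d1 := by
    intro e'
    rcases cov e' with ⟨e, rfl⟩ | ⟨i, rfl⟩
    · by_cases c1 : e = d0
      · right; right; right; left; rw [c1]
      · by_cases c2 : e = d1
        · right; right; right; right; rw [c2]
        · left; exact ⟨e, by rw [hout, if_neg c1, if_neg c2]⟩
    · fin_cases i
      · right; left; rfl
      · left; exact ⟨d0, out_d0.symm⟩
      · left; exact ⟨d1, out_d1.symm⟩
      · right; right; left; rfl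
  have e0 : gl (emb d0) = pos 0 := by rw [hE, if_pos rfl]
  have e1 : gl (emb d1) = pos 3 := by rw [hE, if_neg h01, if_pos rfl]
  constructor
  · intro e'
    rcases cov2 e' with ⟨e, rfl⟩ | rfl | rfl | rfl | rfl
    · rw [key, key, hg]
    · rw [h0, e0]
    · rw [h3, e1]
    · rw [e0, h0]
    · rw [e1, h3]
  · intro e'
    rcases cov2 e' with ⟨e, rfl⟩ | rfl | rfl | rfl | rfl
    · rw [key]; intro h; exact hne e (outinj h)
    · rw [h0]; exact hp _ _
    · rw [h3]; exact hp _ _
    · rw [e0]; exact (hp _ _).symm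
    · rw [e1]; exact (hp _ _).symm

/-- Auxiliary lemma for `finger`. -/
theorem finger_aux {E E' : Type} [DecidableEq E] (g : E → E) (hg : ∀ e, g (g e) = e)
    (hne : ∀ e, g e ≠ e) (emb : E → E') (inj : Injective emb) (S : E → Prop)
    [DecidablePred S] (pos : {d : E // S d} → Fin 4 → E')
    (pinj : ∀ d d' i j, pos d i = pos d' j → d = d' ∧ i = j) (hp : ∀ e d i, emb e ≠ pos d i)
    (dF : {d : E // S d}) (nxt prv : {d : E // S d} → {d : E // S d})
    (hnp : ∀ d, nxt (prv d) = d) (hpn : ∀ d, prv (nxt d) = d) (a : E)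
    (gl : E' → E') (out new : E → E')
    (hout : ∀ e, out e = if h : S e then pos ⟨e, h⟩ 0 else emb e)
    (hnew : ∀ e, new e = if e = a then pos dF 3 else if e = g a then pos (prv dF) 1
      else out (g e))
    (cov : ∀ e', (∃ e, e' = emb e) ∨ ∃ d i, e' = pos d i)
    (hE : ∀ e, gl (emb e) = if h : S e then pos ⟨e, h⟩ 2 else new e)
    (h0 : ∀ d, gl (pos d 0) = new d.1)
    (h1 : ∀ d, gl (pos d 1) = if nxt d = dF then out (g a) else pos (nxt d) 3)
    (h2 : ∀ d, gl (pos d 2) = emb d.1)
    (h3 : ∀ d, gl (pos d 3) = if d = dF then out a else pos (prv d) 1) :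
    (∀ e, gl (gl e) = e) ∧ (∀ e, gl e ≠ e) := by
  have key : ∀ e, gl (out e) = new e := by
    intro e
    rw [hout e]
    split_ifs with c1
    · rw [h0]
    · rw [hE, dif_neg c1]
  have newa : new a = pos dF 3 := by rw [hnew, if_pos rfl]
  have newb : new (g a) = pos (prv dF) 1 := by rw [hnew, if_neg (hne a), if_pos rfl]
  have newo : ∀ e, e ≠ a → e ≠ g a → new e = out (g e) := by
    intro e h h'
    rw [hnew, if_neg h, if_neg h']
  have pne : ∀ {d d' : {d : E // S d}} {i j : Fin 4}, i ≠ j → pos d i ≠ pos d' j :=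
    fun h h' => h (pinj _ _ _ _ h').2
  have outinj : Injective out := by
    intro e e' h
    rw [hout e, hout e'] at h
    split_ifs at h with c1 c2 c3
    · exact congrArg Subtype.val (pinj _ _ _ _ h).1
    · exact absurd h.symm (hp _ _ _)
    · exact absurd h (hp _ _ _)
    · exact inj h
  have out1 : ∀ e d i, i ≠ 0 → out e ≠ pos d i := by
    intro e d i hi
    rw [hout e]
    split_ifs
    · exact pne hi.symm
    · exact hp _ _ _
  have newnew : ∀ e, gl (new e) = out e := by
    intro e
    by_cases c1 : e = a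
    · rw [c1, newa, h3, if_pos rfl]
    · by_cases c2 : e = g a
      · rw [c2, newb, h1, if_pos (hnp dF)]
      · rw [newo e c1 c2, key, newo, hg]
        · intro h; exact c2 (by rw [← h, hg])
        · intro h; exact c1 (by rw [← hg e, h, hg])
  have cov2 : ∀ e', (∃ e, e' = out e) ∨ (∃ d, e' = pos d 2) ∨ (∃ d, e' = pos d 1) ∨
      (∃ d, e' = pos d 3) ∨ ∃ d : {d : E // S d}, e' = emb d.1 := by
    intro e'
    rcases cov e' with ⟨e, rfl⟩ | ⟨d, i, rfl⟩
    · by_cases c1 : S e
      · right; right; right; right; exact ⟨⟨e, c1⟩, rfl⟩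
      · left; exact ⟨e, by rw [hout, dif_neg c1]⟩
    · fin_cases i
      · left; exact ⟨d.1, by rw [hout, dif_pos d.2]; rfl⟩
      · right; right; left; exact ⟨d, rfl⟩
      · right; left; exact ⟨d, rfl⟩
      · right; right; right; left; exact ⟨d, rfl⟩
  have hE2 : ∀ d : {d : E // S d}, gl (emb d.1) = pos d 2 := by
    intro d; rw [hE, dif_pos d.2]
  constructor
  · intro e'
    rcases cov2 e' with ⟨e, rfl⟩ | ⟨d, rfl⟩ | ⟨d, rfl⟩ | ⟨d, rfl⟩ | ⟨d, rfl⟩
    · rw [key, newnew]
    · rw [h2, hE2]
    · rw [h1]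
      split_ifs with c
      · rw [key, newb, ← c, hpn]
      · rw [h3, if_neg c, hpn]
    · rw [h3]
      split_ifs with c
      · rw [key, newa, c]
      · rw [h1, hnp, if_neg c]
    · rw [hE2, h2]
  · intro e'
    rcases cov2 e' with ⟨e, rfl⟩ | ⟨d, rfl⟩ | ⟨d, rfl⟩ | ⟨d, rfl⟩ | ⟨d, rfl⟩
    · rw [key]
      by_cases c1 : e = a
      · rw [c1, newa]; exact (out1 _ _ _ (by decide)).symm
      · by_cases c2 : e = g a
        · rw [c2, newb]; exact (out1 _ _ _ (by decide)).symm
        · rw [newo e c1 c2]; intro h; exact hne e (outinj h)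
    · rw [h2]; exact hp _ _ _
    · rw [h1]
      split_ifs
      · exact out1 _ _ _ (by decide)
      · exact pne (by decide)
    · rw [h3]
      split_ifs
      · exact out1 _ _ _ (by decide)
      · exact pne (by decide)
    · rw [hE2]; exact (hp _ _ _).symm
end Spg
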