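import Pool.Agent.H85.SpgDiag

/-!
# The swap and star properties of the open system of a tangle (layer M10)
-/

open Function

namespace Spg

namespace Tangle

variable {R : Type}

theorem swap_aux (t : Tangle R) (s : t.X → Bool) (x : t.X) (b : Bool) (f : t.End → ZMod 2)
    (h2 : ∀ x i, f (Sum.inl (x, sm (s x) i)) = f (Sum.inl (x, i)))
    (h : f (Sum.inl (x, 0)) = f (Sum.inl (x, 2))) :
    ∀ y i, f (Sum.inl (y, sm (update s x b y) i)) = f (Sum.inl (y, i)) := by
  intro y i
  by_cases hy : y = x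
  · subst hy
    rw [update_self]
    have h0 := h2 y 0
    have h3 := h2 y 2
    cases hs : s y
    · rw [hs] at h0 h3
      have e0 : f (Sum.inl (y, 1)) = f (Sum.inl (y, 0)) := h0
      have e2 : f (Sum.inl (y, 3)) = f (Sum.inl (y, 2)) := h3
      cases b <;> fin_cases i <;> simp [sm, e0, e2, h]
    · rw [hs] at h0 h3
      have e0 : f (Sum.inl (y, 3)) = f (Sum.inl (y, 0)) := h0
      have e2 : f (Sum.inl (y, 1)) = f (Sum.inl (y, 2)) := h3
      cases b <;> fin_cases i <;> simp [sm, e0, e2, h]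
  · rw [update_of_ne hy]
    exact h2 y i

theorem star_local (F F' : Fin 4 → ZMod 2) (b b' : Bool) (h : ∀ i, F (sm b i) = F i)
    (h' : ∀ i, F' (sm b' i) = F' i) :
    F 0 * F' 0 + F 1 * F' 1 + F 2 * F' 2 + F 3 * F' 3 =
      if b = b' then 0 else (F 0 + F 2) * (F' 0 + F' 2) := by
  have two : ∀ a : ZMod 2, a + a = 0 := fun a => by revert a; decide
  cases b
  · have e1 : F 1 = F 0 := h 0
    have e3 : F 3 = F 2 := h 2
    cases b'
    · have e1' : F' 1 = F' 0 := h' 0
      have e3' : F' 3 = F' 2 := h' 2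
      rw [if_pos rfl, e1, e3, e1', e3', two, zero_add, two]
    · have e1' : F' 3 = F' 0 := h' 0
      have e3' : F' 1 = F' 2 := h' 2
      rw [if_neg (by decide), e1, e3, e1', e3']
      ring
  · have e1 : F 3 = F 0 := h 0
    have e3 : F 1 = F 2 := h 2
    cases b'
    · have e1' : F' 1 = F' 0 := h' 0
      have e3' : F' 3 = F' 2 := h' 2
      rw [if_neg (by decide), e1, e3, e1', e3']
      ring
    · have e1' : F' 3 = F' 0 := h' 0
      have e3' : F' 1 = F' 2 := h' 2
      rw [if_pos rfl, e1, e3, e1', e3']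
      have := two (F 0 * F' 0)
      have h2 := two (F 2 * F' 2)
      linear_combination this + h2

theorem star_aux [Fintype R] (t : Tangle R) (s s' : t.X → Bool) (f f' : t.End → ZMod 2)
    (h1 : ∀ d, f (t.glue d) = f d)
    (h2 : ∀ x i, f (Sum.inl (x, sm (s x) i)) = f (Sum.inl (x, i)))
    (h1' : ∀ d, f' (t.glue d) = f' d)
    (h2' : ∀ x i, f' (Sum.inl (x, sm (s' x) i)) = f' (Sum.inl (x, i))) :
    ∑ r : R, f (Sum.inr r) * f' (Sum.inr r) = ∑ x : t.X, if s x = s' x then 0 else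
      (f (Sum.inl (x, 0)) + f (Sum.inl (x, 2))) * (f' (Sum.inl (x, 0)) + f' (Sum.inl (x, 2))) := by
  have two : ∀ a : ZMod 2, a + a = 0 := fun a => by revert a; decide
  have tot : ∑ e : t.X × Fin 4 ⊕ R, f e * f' e = 0 := by
    refine Finset.sum_involution (fun e _ => t.glue e) ?_ ?_ ?_ ?_
    · intro e _
      rw [h1, h1', two]
    · intro e _ _
      exact t.glue_ne e
    · intro e _; exact Finset.mem_univ _
    · intro e _; exact t.glue_glue e
  rw [Fintype.sum_sum_type, Fintype.sum_prod_type] at tot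
  have e : ∀ x : t.X, ∑ i : Fin 4, f (Sum.inl (x, i)) * f' (Sum.inl (x, i)) =
      if s x = s' x then 0 else
      (f (Sum.inl (x, 0)) + f (Sum.inl (x, 2))) * (f' (Sum.inl (x, 0)) + f' (Sum.inl (x, 2))) := by
    intro x
    rw [Fin.sum_univ_four]
    exact star_local (fun i => f (Sum.inl (x, i))) (fun i => f' (Sum.inl (x, i))) (s x) (s' x)
      (h2 x) (h2' x)
  rw [Finset.sum_congr rfl (fun x _ => e x)] at tot
  have h3 := two (∑ r : R, f (Sum.inr r) * f' (Sum.inr r))
  linear_combination h3 - tot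

end Tangle

theorem Diagram.star_aux (G : Diagram) (s s' : G.X → Bool) (f f' : G.End → ZMod 2)
    (h1 : ∀ d, f (G.glue d) = f d)
    (h2 : ∀ x i, f (Sum.inl (x, sm (s x) i)) = f (Sum.inl (x, i)))
    (h3 : ∀ m, f (Sum.inr (Sum.inl (m, 0))) = f (Sum.inr (Sum.inl (m, 1))))
    (h1' : ∀ d, f' (G.glue d) = f' d)
    (h2' : ∀ x i, f' (Sum.inl (x, sm (s' x) i)) = f' (Sum.inl (x, i)))
    (h3' : ∀ m, f' (Sum.inr (Sum.inl (m, 0))) = f' (Sum.inr (Sum.inl (m, 1)))) :
    ∑ v : G.V, f (Sum.inr (Sum.inr v)) * f' (Sum.inr (Sum.inr v)) =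
      ∑ x : G.X, if s x = s' x then 0 else
      (f (Sum.inl (x, 0)) + f (Sum.inl (x, 2))) * (f' (Sum.inl (x, 0)) + f' (Sum.inl (x, 2))) := by
  have two : ∀ a : ZMod 2, a + a = 0 := fun a => by revert a; decide
  rw [← G.tan.star_aux s s' f f' h1 h2 h1' h2', Fintype.sum_sum_type, Fintype.sum_prod_type]
  have : ∀ m : G.M, ∑ i : Fin 2, f (Sum.inr (Sum.inl (m, i))) * f' (Sum.inr (Sum.inl (m, i))) = 0 := by
    intro m
    rw [Fin.sum_univ_two, h3, h3', two]
  rw [Finset.sum_congr rfl (fun m _ => this m), Finset.sum_const_zero, zero_add]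

end Spg
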