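import Pool.Agent.H85.SpgClos
import Pool.Agent.H50.SpgStar

/-!
# The system of the nodes of a diagram (layer M10b)
-/

set_option linter.unusedSectionVars false

open Function

namespace Spg

/-! ### The system of the nodes -/

section Nodes

variable (X M V : Type) [Fintype X] [DecidableEq X] [Fintype M] [DecidableEq M] [Fintype V]
  [DecidableEq V]

theorem sm_swap {T : Type} (F : Fin 4 → T) (b b' : Bool) (h : ∀ i, F (sm b i) = F i)
    (h' : F 0 = F 2) (i : Fin 4) : F (sm b' i) = F i := by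
  have h0 := h 0
  have h3 := h 2
  cases b
  · have e0 : F 1 = F 0 := h0
    have e2 : F 3 = F 2 := h3
    cases b' <;> fin_cases i <;> simp [sm, e0, e2, h']
  · have e0 : F 3 = F 0 := h0
    have e2 : F 1 = F 2 := h3
    cases b' <;> fin_cases i <;> simp [sm, e0, e2, h']

/-- The nodes (crossings and markers) as an open system; the legs are their ends. -/
def CN : PS (X × Fin 4 ⊕ M × Fin 2) where
  P := X × Fin 4 ⊕ M × Fin 2
  X := X
  Con s :=
    { carrier := {f | (∀ x i, f (Sum.inl (x, sm (s x) i)) = f (Sum.inl (x, i))) ∧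
        ∀ m, f (Sum.inr (m, 0)) = f (Sum.inr (m, 1))}
      add_mem' := by
        rintro f g ⟨h1, h2⟩ ⟨k1, k2⟩
        refine ⟨fun x i => ?_, fun m => ?_⟩
        · simp only [Pi.add_apply, h1, k1]
        · simp only [Pi.add_apply, h2, k2]
      zero_mem' := ⟨fun _ _ => rfl, fun _ => rfl⟩
      smul_mem' := by
        rintro c f ⟨h1, h2⟩
        refine ⟨fun x i => ?_, fun m => ?_⟩
        · simp only [Pi.smul_apply, h1]
        · simp only [Pi.smul_apply, h2] }
  ua x := Sum.inl (x, 0)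
  ub x := Sum.inl (x, 2)
  leg := id
  act := Finset.univ
  val _ := false
  swap := by
    rintro s x b f ⟨h1, h2⟩ h
    refine ⟨fun y i => ?_, h2⟩
    by_cases hy : y = x
    · subst hy
      rw [update_self]
      exact sm_swap (fun i => f (Sum.inl (y, i))) (s y) b (h1 y) h i
    · rw [update_of_ne hy]
      exact h1 y i
  star := by
    rintro s s' f f' ⟨h1, h2⟩ ⟨k1, k2⟩
    have two : ∀ a : ZMod 2, a + a = 0 := fun a => by revert a; decide
    show ∑ l : X × Fin 4 ⊕ M × Fin 2, f l * f' l = _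
    rw [Fintype.sum_sum_type, Fintype.sum_prod_type, Fintype.sum_prod_type]
    have e : ∀ x : X, ∑ i : Fin 4, f (Sum.inl (x, i)) * f' (Sum.inl (x, i)) =
        if s x = s' x then 0 else
        (f (Sum.inl (x, 0)) + f (Sum.inl (x, 2))) *
          (f' (Sum.inl (x, 0)) + f' (Sum.inl (x, 2))) := by
      intro x
      rw [Fin.sum_univ_four]
      exact Tangle.star_local (fun i => f (Sum.inl (x, i))) (fun i => f' (Sum.inl (x, i))) (s x)
        (s' x) (h1 x) (k1 x)
    have e' : ∀ m : M, ∑ i : Fin 2, f (Sum.inr (m, i)) * f' (Sum.inr (m, i)) = 0 := by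
      intro m
      rw [Fin.sum_univ_two, h2, k2, two]
    rw [Finset.sum_congr rfl (fun x _ => e x), Finset.sum_congr rfl (fun m _ => e' m),
      Finset.sum_const_zero, add_zero]

variable {X M V}

/-- All ends, sorted into ends at the vertices and ends at the other nodes. -/
def kap : X × Fin 4 ⊕ M × Fin 2 ⊕ V ≃ V ⊕ (X × Fin 4 ⊕ M × Fin 2) :=
  (Equiv.sumAssoc _ _ _).symm.trans (Equiv.sumComm _ _)

/-- Gluing all nodes to a system of open ends. -/
def capall (Z : PS (X × Fin 4 ⊕ M × Fin 2 ⊕ V)) : PS V :=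
  PS.cap (PS.relabel kap Z) (CN X M)

/-- The rotation of all ends. -/
def rotN (next : Equiv.Perm V) : Equiv.Perm (X × Fin 4 ⊕ M × Fin 2 ⊕ V) :=
  Equiv.sumCongr (Equiv.prodCongr (Equiv.refl X) (Equiv.addRight 1))
    (Equiv.sumCongr (Equiv.prodCongr (Equiv.refl M) (Equiv.addRight 1)) next)

/-- The colour of all ends. -/
def colN (c : V → Bool) : X × Fin 4 ⊕ M × Fin 2 ⊕ V → Bool :=
  Sum.elim (fun p => p.2 == 0 || p.2 == 2) (Sum.elim (fun p => p.2 == 0) c)

theorem colN_rot {next : Equiv.Perm V} {c : V → Bool} (hc : ∀ v, c (next v) = !c v) :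
    ∀ n, colN (X := X) (M := M) c (rotN next n) = !colN c n := by
  rintro (⟨x, i⟩ | ⟨m, i⟩ | v)
  · show (i + 1 == 0 || i + 1 == 2) = !(i == 0 || i == 2)
    revert i; decide
  · show (i + 1 == 0) = !(i == 0)
    revert i; decide
  · exact hc v

/-- The letters of all ends which give a word of letters at the vertices and all the crossings. -/
def nodeW (W : List (AL V)) (L : List X) : List (AL (X × Fin 4 ⊕ M × Fin 2 ⊕ V)) :=
  W.map (fun a => ⟨Sum.inr (Sum.inr a.v), a.b, a.fr⟩) ++
    L.map (fun x => ⟨Sum.inl (x, 1), false, none⟩)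

/-- The nodes together with the standard closing of the vertices, with the active crossings `a`;
all other crossings are in the state `false`. -/
def NN {next : Equiv.Perm V} {c : V → Bool} (hc : ∀ v, c (next v) = !c v) (a : Finset X) :
    PS (X × Fin 4 ⊕ M × Fin 2 ⊕ V) where
  P := X × Fin 4 ⊕ M × Fin 2 ⊕ V
  X := X
  Con s :=
    { carrier := {f | (∀ x i, f (Sum.inl (x, sm (s x) i)) = f (Sum.inl (x, i))) ∧
        (∀ m, f (Sum.inr (Sum.inl (m, 0))) = f (Sum.inr (Sum.inl (m, 1)))) ∧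
        ∀ v, f (Sum.inr (Sum.inr (mu next c v))) = f (Sum.inr (Sum.inr v))}
      add_mem' := by
        rintro f g ⟨h1, h2, h3⟩ ⟨k1, k2, k3⟩
        refine ⟨fun x i => ?_, fun m => ?_, fun v => ?_⟩
        · simp only [Pi.add_apply, h1, k1]
        · simp only [Pi.add_apply, h2, k2]
        · simp only [Pi.add_apply, h3, k3]
      zero_mem' := ⟨fun _ _ => rfl, fun _ => rfl, fun _ => rfl⟩
      smul_mem' := by
        rintro c f ⟨h1, h2, h3⟩
        refine ⟨fun x i => ?_, fun m => ?_, fun v => ?_⟩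
        · simp only [Pi.smul_apply, h1]
        · simp only [Pi.smul_apply, h2]
        · simp only [Pi.smul_apply, h3] }
  ua x := Sum.inl (x, 0)
  ub x := Sum.inl (x, 2)
  leg := id
  act := a
  val _ := false
  swap := by
    rintro s x b f ⟨h1, h2, h3⟩ h
    have h4 := (CN X M).swap s x b (fun p => f (Sum.elim Sum.inl (Sum.inr ∘ Sum.inl) p))
      ⟨h1, h2⟩ h
    exact ⟨h4.1, h2, h3⟩
  star := by
    rintro s s' f f' ⟨h1, h2, h3⟩ ⟨k1, k2, k3⟩
    have h4 := (CN X M).star s s' (fun p => f (Sum.elim Sum.inl (Sum.inr ∘ Sum.inl) p))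
      (fun p => f' (Sum.elim Sum.inl (Sum.inr ∘ Sum.inl) p)) ⟨h1, h2⟩ ⟨k1, k2⟩
    have h5 := (PS.base (mu next c) (mu_mu hc) (mu_ne hc)).star Empty.elim Empty.elim
      (fun v => f (Sum.inr (Sum.inr v))) (fun v => f' (Sum.inr (Sum.inr v))) h3 k3
    have h4' : ∑ l : X × Fin 4 ⊕ M × Fin 2, f (Sum.elim Sum.inl (Sum.inr ∘ Sum.inl) l) *
        f' (Sum.elim Sum.inl (Sum.inr ∘ Sum.inl) l) = ∑ x : X, if s x = s' x then 0 else
          (f (Sum.inl (x, 0)) + f (Sum.inl (x, 2))) *
          (f' (Sum.inl (x, 0)) + f' (Sum.inl (x, 2))) := h4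
    have h5' : ∑ v : V, f (Sum.inr (Sum.inr v)) * f' (Sum.inr (Sum.inr v)) = 0 :=
      h5.trans (Finset.sum_eq_zero (fun x _ => Empty.elim x))
    show ∑ l : X × Fin 4 ⊕ M × Fin 2 ⊕ V, f l * f' l = ∑ x : X, if s x = s' x then 0 else
          (f (Sum.inl (x, 0)) + f (Sum.inl (x, 2))) *
          (f' (Sum.inl (x, 0)) + f' (Sum.inl (x, 2)))
    rw [Fintype.sum_sum_type] at h4' ⊢
    rw [Fintype.sum_sum_type, ← h4', h5', add_zero]
    rfl

section

variable {next : Equiv.Perm V} {c : V → Bool} (hc : ∀ v, c (next v) = !c v)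

/-- (a) no letters at the crossings -/
theorem NN_nil : PS.Iso (NN (X := X) (M := M) hc ∅)
    (KK0 (colN_rot (X := X) (M := M) hc) []) := by
  refine ⟨id, Empty.elim, ?_⟩
  have cube : ∀ s, InCube (NN (X := X) (M := M) hc ∅).act (NN (X := X) (M := M) hc ∅).val s →
      ∀ x, s x = false := fun s hs x => hs x (Finset.notMem_empty _)
  have hm : ∀ f : X × Fin 4 ⊕ M × Fin 2 ⊕ V → ZMod 2,
      (∀ n, f (mu (rotN next) (colN c) n) = f n) ↔ f ∈ (NN hc ∅).Con (fun _ => false) := by
    intro f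
    have hx : ∀ (x : X) (i : Fin 4), mu (rotN next) (colN (X := X) (M := M) c)
        (Sum.inl (x, i)) = Sum.inl (x, sm false i) := by
      intro x i
      fin_cases i <;> rfl
    have hm : ∀ (m : M) (i : Fin 2), mu (rotN next) (colN (X := X) (M := M) c)
        (Sum.inr (Sum.inl (m, i))) = Sum.inr (Sum.inl (m, i + 1)) := by
      intro m i
      fin_cases i <;> rfl
    have hv : ∀ v : V, mu (rotN next) (colN (X := X) (M := M) c)
        (Sum.inr (Sum.inr v)) = Sum.inr (Sum.inr (mu next c v)) := by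
      intro v
      cases h : c v <;> simp [mu, colN, h, rotN]
    constructor
    · intro h
      refine ⟨fun x i => ?_, fun m => ?_, fun v => ?_⟩
      · rw [← h (Sum.inl (x, i)), hx]
      · rw [← h (Sum.inr (Sum.inl (m, 0))), hm]
        rfl
      · rw [← h (Sum.inr (Sum.inr v)), hv]
    · rintro ⟨h1, h2, h3⟩ (⟨x, i⟩ | ⟨m, i⟩ | v)
      · rw [hx]
        exact h1 x i
      · rw [hm]
        fin_cases i
        · exact (h2 m).symm
        · exact h2 m
      · rw [hv]
        exact h3 v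
  exact {
    inj := fun x => Empty.elim x
    act := fun x => ⟨fun h => absurd h (Finset.notMem_empty _), fun ⟨y, _⟩ => Empty.elim y⟩
    val := fun y => Empty.elim y
    con := by
      intro s hs f hf
      have : s = fun _ => false := funext (cube s hs)
      subst this
      exact (hm f).2 hf
    det := fun s hs f hf h0 => funext h0
    ext := by
      intro s hs g hg
      have : s = fun _ => false := funext (cube s hs)
      subst this
      exact ⟨g, (hm g).1 hg, fun _ => rfl⟩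
    u := fun s hs y => Empty.elim y
    leg := fun s hs f hf l => rfl }

/-- the letter of a crossing -/
def nodeL (x : X) : AL (X × Fin 4 ⊕ M × Fin 2 ⊕ V) := ⟨Sum.inl (x, 1), false, none⟩

/-- points of the extended node system -/
def nj (x : X) (p : X × Fin 4 ⊕ M × Fin 2 ⊕ V) : (X × Fin 4 ⊕ M × Fin 2 ⊕ V) ⊕ Bool :=
  if p = Sum.inl (x, 1) then Sum.inr false else if p = Sum.inl (x, 2) then Sum.inr true
    else Sum.inl p

theorem nj_1 (x : X) : nj (M := M) (V := V) x (Sum.inl (x, 1)) = Sum.inr false := if_pos rfl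

theorem nj_2 (x : X) : nj (M := M) (V := V) x (Sum.inl (x, 2)) = Sum.inr true := by
  unfold nj
  rw [if_neg (by simp), if_pos rfl]

theorem nj_0 (x : X) : nj (M := M) (V := V) x (Sum.inl (x, 0)) = Sum.inl (Sum.inl (x, 0)) := by
  unfold nj
  rw [if_neg (by simp), if_neg (by simp)]

theorem nj_3 (x : X) : nj (M := M) (V := V) x (Sum.inl (x, 3)) = Sum.inl (Sum.inl (x, 3)) := by
  unfold nj
  rw [if_neg (by simp), if_neg (by simp)]

theorem nj_ne (x y : X) (h : y ≠ x) (i : Fin 4) :
    nj (M := M) (V := V) x (Sum.inl (y, i)) = Sum.inl (Sum.inl (y, i)) := by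
  unfold nj
  rw [if_neg (by simp [h]), if_neg (by simp [h])]

theorem nj_r (x : X) (r : M × Fin 2 ⊕ V) :
    nj (M := M) (V := V) x (Sum.inr r) = Sum.inl (Sum.inr r) := by
  unfold nj
  rw [if_neg (by simp), if_neg (by simp)]

/-- the condition of `NN` -/
def NC (next : Equiv.Perm V) (c : V → Bool) (s : X → Bool)
    (f : X × Fin 4 ⊕ M × Fin 2 ⊕ V → ZMod 2) : Prop :=
  (∀ x i, f (Sum.inl (x, sm (s x) i)) = f (Sum.inl (x, i))) ∧
    (∀ m, f (Sum.inr (Sum.inl (m, 0))) = f (Sum.inr (Sum.inl (m, 1)))) ∧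
    ∀ v, f (Sum.inr (Sum.inr (mu next c v))) = f (Sum.inr (Sum.inr v))

/-- the condition of the node system with a crossing attached -/
def AC (next : Equiv.Perm V) (c : V → Bool) (x : X) (s : Option X → Bool)
    (f : (X × Fin 4 ⊕ M × Fin 2 ⊕ V) ⊕ Bool → ZMod 2) : Prop :=
  NC next c (fun y => s (some y)) (fun p => f (Sum.inl p)) ∧
      ((s none = false → f (Sum.inl (Sum.inl (x, 1))) = f (Sum.inr false) ∧
        f (Sum.inl (Sum.inl (x, 2))) = f (Sum.inr true)) ∧
      (s none = true → f (Sum.inl (Sum.inl (x, 1))) = f (Sum.inl (Sum.inl (x, 2))) ∧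
        f (Sum.inr false) = f (Sum.inr true)))

/-- crossings -/
def ne' (x : X) (y : X) : Option X := if y = x then none else some y

theorem ne'_self (x : X) : ne' x x = none := if_pos rfl

theorem ne'_ne {x y : X} (h : y ≠ x) : ne' x y = some y := if_neg h

theorem AC_iff {next : Equiv.Perm V} {c : V → Bool} (hc : ∀ v, c (next v) = !c v)
    (a : Finset X) (x : X) (s : Option X → Bool)
    (f : (X × Fin 4 ⊕ M × Fin 2 ⊕ V) ⊕ Bool → ZMod 2) :
    f ∈ (PS.attach (NN (X := X) (M := M) hc a)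
        (AL.toL (colN_rot (X := X) (M := M) hc) (nodeL x))).Con s ↔ AC next c x s f := by
  have h1 : ∀ b, (AL.toL (colN_rot (X := X) (M := M) hc) (nodeL x)).mt b =
      if b = true then Mt.E else Mt.I := by
    intro b
    cases b <;> rfl
  have h2 : ∀ b, (((AL.toL (colN_rot (X := X) (M := M) hc) (nodeL x)).mt b).ok
      (f (Sum.inl (Sum.inl (x, 1)))) (f (Sum.inl (Sum.inl (x, 2)))) (f (Sum.inr false))
      (f (Sum.inr true))) ↔ ((b = false → f (Sum.inl (Sum.inl (x, 1))) = f (Sum.inr false) ∧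
        f (Sum.inl (Sum.inl (x, 2))) = f (Sum.inr true)) ∧
      (b = true → f (Sum.inl (Sum.inl (x, 1))) = f (Sum.inl (Sum.inl (x, 2))) ∧
        f (Sum.inr false) = f (Sum.inr true))) := by
    intro b
    rw [h1]
    cases b
    · exact ⟨fun h => ⟨fun _ => h, fun h' => absurd h' (by simp)⟩, fun h => h.1 rfl⟩
    · exact ⟨fun h => ⟨fun h' => absurd h' (by simp), fun _ => h⟩, fun h => h.2 rfl⟩
  constructor
  · rintro ⟨k1, k2⟩
    exact ⟨k1, (h2 (s none)).1 k2⟩
  · rintro ⟨k1, k2⟩
    exact ⟨k1, (h2 (s none)).2 k2⟩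

section core

variable {next : Equiv.Perm V} {c : V → Bool} {x : X} {s : Option X → Bool}

theorem AC.c0 {f : (X × Fin 4 ⊕ M × Fin 2 ⊕ V) ⊕ Bool → ZMod 2} (h : AC next c x s f)
    (hs : s (some x) = false) :
    f (Sum.inl (Sum.inl (x, 1))) = f (Sum.inl (Sum.inl (x, 0))) ∧
      f (Sum.inl (Sum.inl (x, 2))) = f (Sum.inl (Sum.inl (x, 3))) := by
  have k0 : f (Sum.inl (Sum.inl (x, sm (s (some x)) 0))) = f (Sum.inl (Sum.inl (x, 0))) :=
    h.1.1 x 0
  have k3 : f (Sum.inl (Sum.inl (x, sm (s (some x)) 3))) = f (Sum.inl (Sum.inl (x, 3))) :=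
    h.1.1 x 3
  rw [hs] at k0 k3
  exact ⟨k0, k3⟩

theorem AC.con {f : (X × Fin 4 ⊕ M × Fin 2 ⊕ V) ⊕ Bool → ZMod 2} (h : AC next c x s f)
    (hs : s (some x) = false) :
    NC next c (fun y => s (ne' x y)) (fun p => f (nj x p)) := by
  obtain ⟨k1, k2⟩ := h.c0 hs
  obtain ⟨⟨h1, h2, h3⟩, h4, h5⟩ := h
  refine ⟨fun y i => ?_, fun m => ?_, fun v => ?_⟩
  · by_cases hy : y = x
    · subst hy
      show f (nj y (Sum.inl (y, sm (s (ne' y y)) i))) = f (nj y (Sum.inl (y, i)))
      rw [ne'_self]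
      cases hn : s none
      · obtain ⟨m1, m2⟩ := h4 hn
        fin_cases i
        · show f (nj y (Sum.inl (y, 1))) = f (nj y (Sum.inl (y, 0)))
          rw [nj_1, nj_0, ← m1, k1]
        · show f (nj y (Sum.inl (y, 0))) = f (nj y (Sum.inl (y, 1)))
          rw [nj_1, nj_0, ← m1, k1]
        · show f (nj y (Sum.inl (y, 3))) = f (nj y (Sum.inl (y, 2)))
          rw [nj_2, nj_3, ← m2, k2]
        · show f (nj y (Sum.inl (y, 2))) = f (nj y (Sum.inl (y, 3)))
          rw [nj_2, nj_3, ← m2, k2]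
      · obtain ⟨m1, m2⟩ := h5 hn
        fin_cases i
        · show f (nj y (Sum.inl (y, 3))) = f (nj y (Sum.inl (y, 0)))
          rw [nj_3, nj_0, ← k2, ← k1, m1]
        · show f (nj y (Sum.inl (y, 2))) = f (nj y (Sum.inl (y, 1)))
          rw [nj_1, nj_2, m2]
        · show f (nj y (Sum.inl (y, 1))) = f (nj y (Sum.inl (y, 2)))
          rw [nj_1, nj_2, m2]
        · show f (nj y (Sum.inl (y, 0))) = f (nj y (Sum.inl (y, 3)))
          rw [nj_3, nj_0, ← k2, ← k1, m1]
    · show f (nj x (Sum.inl (y, sm (s (ne' x y)) i))) = f (nj x (Sum.inl (y, i)))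
      rw [ne'_ne hy, nj_ne x y hy, nj_ne x y hy]
      exact h1 y i
  · show f (nj x (Sum.inr (Sum.inl (m, 0)))) = f (nj x (Sum.inr (Sum.inl (m, 1))))
    rw [nj_r, nj_r]
    exact h2 m
  · show f (nj x (Sum.inr (Sum.inr (mu next c v)))) = f (nj x (Sum.inr (Sum.inr v)))
    rw [nj_r, nj_r]
    exact h3 v

theorem AC.det {f : (X × Fin 4 ⊕ M × Fin 2 ⊕ V) ⊕ Bool → ZMod 2} (h : AC next c x s f)
    (hs : s (some x) = false) (h0 : ∀ p, f (nj x p) = 0) : f = 0 := by
  obtain ⟨k1, k2⟩ := h.c0 hs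
  have z0 : f (Sum.inl (Sum.inl (x, 0))) = 0 :=
    (congrArg f (nj_0 x)).symm.trans (h0 (Sum.inl (x, 0)))
  have z3 : f (Sum.inl (Sum.inl (x, 3))) = 0 :=
    (congrArg f (nj_3 x)).symm.trans (h0 (Sum.inl (x, 3)))
  funext p
  rcases p with (⟨y, i⟩ | r) | b
  · by_cases hy : y = x
    · subst hy
      fin_cases i
      · exact z0
      · exact k1.trans z0
      · exact k2.trans z3
      · exact z3
    · exact (congrArg f (nj_ne x y hy i)).symm.trans (h0 (Sum.inl (y, i)))
  · exact (congrArg f (nj_r x r)).symm.trans (h0 (Sum.inr r))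
  · cases b
    · exact (congrArg f (nj_1 x)).symm.trans (h0 (Sum.inl (x, 1)))
    · exact (congrArg f (nj_2 x)).symm.trans (h0 (Sum.inl (x, 2)))

theorem AC.ext {g : X × Fin 4 ⊕ M × Fin 2 ⊕ V → ZMod 2}
    (h : NC next c (fun y => s (ne' x y)) g)
    (hs : s (some x) = false) : ∃ f, AC next c x s f ∧ ∀ p, f (nj x p) = g p := by
  obtain ⟨h1, h2, h3⟩ := h
  let F : (X × Fin 4 ⊕ M × Fin 2 ⊕ V) ⊕ Bool → ZMod 2 := Sum.elim
    (fun p => if p = Sum.inl (x, 1) then g (Sum.inl (x, 0)) else
      if p = Sum.inl (x, 2) then g (Sum.inl (x, 3)) else g p)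
    (fun b => if b = false then g (Sum.inl (x, 1)) else g (Sum.inl (x, 2)))
  have F1 : F (Sum.inl (Sum.inl (x, 1))) = g (Sum.inl (x, 0)) := if_pos rfl
  have F2 : F (Sum.inl (Sum.inl (x, 2))) = g (Sum.inl (x, 3)) :=
    (if_neg (by simp)).trans (if_pos rfl)
  have F0 : F (Sum.inl (Sum.inl (x, 0))) = g (Sum.inl (x, 0)) :=
    (if_neg (by simp)).trans (if_neg (by simp))
  have F3 : F (Sum.inl (Sum.inl (x, 3))) = g (Sum.inl (x, 3)) :=
    (if_neg (by simp)).trans (if_neg (by simp))
  have Fne : ∀ y i, y ≠ x → F (Sum.inl (Sum.inl (y, i))) = g (Sum.inl (y, i)) :=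
    fun y i hy => (if_neg (by simp [hy])).trans (if_neg (by simp [hy]))
  have Fr : ∀ r : M × Fin 2 ⊕ V, F (Sum.inl (Sum.inr r)) = g (Sum.inr r) := by
    intro r
    show (if (Sum.inr r : X × Fin 4 ⊕ M × Fin 2 ⊕ V) = Sum.inl (x, 1) then g (Sum.inl (x, 0)) else
      if (Sum.inr r : X × Fin 4 ⊕ M × Fin 2 ⊕ V) = Sum.inl (x, 2) then g (Sum.inl (x, 3)) else
        g (Sum.inr r)) = g (Sum.inr r)
    rw [if_neg (by simp), if_neg (by simp)]
  have Ff : F (Sum.inr false) = g (Sum.inl (x, 1)) := rfl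
  have Ft : F (Sum.inr true) = g (Sum.inl (x, 2)) := rfl
  have g1 : ∀ i, g (Sum.inl (x, sm (s none) i)) = g (Sum.inl (x, i)) := by
    intro i
    have : g (Sum.inl (x, sm (s (ne' x x)) i)) = g (Sum.inl (x, i)) := h1 x i
    rw [ne'_self] at this
    exact this
  refine ⟨F, ⟨⟨fun y i => ?_, fun m => ?_, fun v => ?_⟩, fun hn => ?_, fun hn => ?_⟩, ?_⟩
  · by_cases hy : y = x
    · subst hy
      show F (Sum.inl (Sum.inl (y, sm (s (some y)) i))) = F (Sum.inl (Sum.inl (y, i)))
      rw [hs]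
      fin_cases i
      · exact F1.trans F0.symm
      · exact F0.trans F1.symm
      · exact F3.trans F2.symm
      · exact F2.trans F3.symm
    · have : g (Sum.inl (y, sm (s (ne' x y)) i)) = g (Sum.inl (y, i)) := h1 y i
      rw [ne'_ne hy] at this
      exact (Fne y _ hy).trans (this.trans (Fne y i hy).symm)
  · exact (Fr _).trans ((h2 m).trans (Fr _).symm)
  · exact (Fr _).trans ((h3 v).trans (Fr _).symm)
  · rw [hn] at g1
    exact ⟨F1.trans ((g1 0).symm.trans Ff.symm), F2.trans ((g1 2).trans Ft.symm)⟩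
  · rw [hn] at g1
    exact ⟨F1.trans ((g1 0).symm.trans F2.symm), Ff.trans ((g1 1).symm.trans Ft.symm)⟩
  · rintro (⟨y, i⟩ | r)
    · by_cases hy : y = x
      · subst hy
        fin_cases i
        · exact (congrArg F (nj_0 y)).trans F0
        · exact congrArg F (nj_1 y)
        · exact congrArg F (nj_2 y)
        · exact (congrArg F (nj_3 y)).trans F3
      · exact (congrArg F (nj_ne x y hy i)).trans (Fne y i hy)
    · exact (congrArg F (nj_r x r)).trans (Fr r)

/-- The points of the crossings of the attached system. -/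
def aua (x : X) (o : Option X) : (X × Fin 4 ⊕ M × Fin 2 ⊕ V) ⊕ Bool :=
  o.elim (Sum.inl (Sum.inl (x, 1))) (fun y => Sum.inl (Sum.inl (y, 0)))

/-- The points of the crossings of the attached system. -/
def aub (o : Option X) : (X × Fin 4 ⊕ M × Fin 2 ⊕ V) ⊕ Bool :=
  o.elim (Sum.inr true) (fun y => Sum.inl (Sum.inl (y, 2)))

theorem AC.u {f : (X × Fin 4 ⊕ M × Fin 2 ⊕ V) ⊕ Bool → ZMod 2} (h : AC next c x s f)
    (hs : s (some x) = false) (y : X) : f (aua x (ne' x y)) + f (aub (ne' x y)) =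
      f (nj x (Sum.inl (y, 0))) + f (nj x (Sum.inl (y, 2))) := by
  by_cases hyx : y = x
  · subst hyx
    rw [ne'_self, nj_0, nj_2]
    exact congrArg (· + f (Sum.inr true)) (h.c0 hs).1
  · rw [ne'_ne hyx, nj_ne x y hyx, nj_ne x y hyx]
    rfl

end core

/-- (b) one more crossing -/
theorem NN_cons (a : Finset X) (x : X) (hx : x ∉ a) :
    PS.Iso (PS.attach (NN (X := X) (M := M) hc a)
      (AL.toL (colN_rot (X := X) (M := M) hc) (nodeL x)))
      (NN (X := X) (M := M) hc (insert x a)) := by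
  have act : ∀ o : Option X, o ∈ insert none (a.map Function.Embedding.some) ↔
      ∃ y ∈ insert x a, ne' x y = o := by
    rintro (_ | y)
    · constructor
      · intro _
        exact ⟨x, Finset.mem_insert_self _ _, ne'_self x⟩
      · intro _
        exact Finset.mem_insert_self _ _
    · constructor
      · intro h
        have h2 : y ∈ a := by simpa using h
        exact ⟨y, Finset.mem_insert_of_mem h2, ne'_ne (fun h3 => hx (h3 ▸ h2))⟩
      · rintro ⟨z, hz, hzy⟩
        have hzx : z ≠ x := by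
          intro h
          rw [h, ne'_self] at hzy
          exact absurd hzy (by simp)
        rw [ne'_ne hzx] at hzy
        have h3 := Option.some_injective _ hzy
        rw [← h3]
        have : z ∈ a := (Finset.mem_insert.1 hz).resolve_left hzx
        simp [this]
  have cube : ∀ s : Option X → Bool, InCube (PS.attach (NN (X := X) (M := M) hc a)
      (AL.toL (colN_rot (X := X) (M := M) hc) (nodeL x))).act
      (PS.attach (NN (X := X) (M := M) hc a)
      (AL.toL (colN_rot (X := X) (M := M) hc) (nodeL x))).val s → s (some x) = false := by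
    intro s hs
    refine hs (some x) ?_
    show (some x : Option X) ∉ insert none (a.map Function.Embedding.some)
    simp [hx]
  have inj : Injective (ne' x) := by
    intro y z h
    by_cases hy : y = x
    · by_cases hz : z = x
      · rw [hy, hz]
      · rw [hy, ne'_self, ne'_ne hz] at h
        exact absurd h (by simp)
    · by_cases hz : z = x
      · rw [hz, ne'_self, ne'_ne hy] at h
        exact absurd h (by simp)
      · rw [ne'_ne hy, ne'_ne hz] at h
        exact Option.some_injective _ h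
  have val : ∀ o : Option X, (PS.attach (NN (X := X) (M := M) hc a)
      (AL.toL (colN_rot (X := X) (M := M) hc) (nodeL x))).val o = false := by
    rintro (_ | y) <;> rfl
  exact ⟨nj x, ne' x, {
    inj := inj
    act := act
    val := fun y _ => val _
    con := fun s hs f hf => AC.con ((AC_iff hc a x s f).1 hf) (cube s hs)
    det := fun s hs f hf h0 => AC.det ((AC_iff hc a x s f).1 hf) (cube s hs) h0
    ext := fun s hs g hg => by
      obtain ⟨f, hf, hfg⟩ := AC.ext (x := x) (s := s) (g := g) hg (cube s hs)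
      exact ⟨f, (AC_iff hc a x s f).2 hf, hfg⟩
    u := fun s hs y _ f hf => AC.u ((AC_iff hc a x s f).1 hf) (cube s hs) y
    leg := fun s hs f hf l => rfl }⟩

/-- (c) all crossings of a list -/
theorem EE_NN (L : List X) (hn : L.Nodup) :
    ∀ (C : PS (X × Fin 4 ⊕ M × Fin 2 ⊕ V)) (n : ℤ),
      PS.EE (KK0 (colN_rot (X := X) (M := M) hc) (L.map nodeL)) C n ↔
        PS.EE (NN (X := X) (M := M) hc L.toFinset) C n := by
  induction L with
  | nil =>
    intro C n
    exact ((NN_nil (X := X) (M := M) hc).EE C n).symm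
  | cons x L ih =>
    intro C n
    obtain ⟨hx, hL⟩ := List.nodup_cons.1 hn
    have h1 : PS.EE (KK0 (colN_rot (X := X) (M := M) hc) ((x :: L).map nodeL)) C n ↔
        PS.EE (KK0 (colN_rot (X := X) (M := M) hc) (L.map nodeL))
          (PS.attach C (AL.toL (colN_rot (X := X) (M := M) hc) (nodeL x))) n :=
      PS.EE_attach _ _ _ _
    have h2 := PS.EE_attach (NN (X := X) (M := M) hc L.toFinset) C
      (AL.toL (colN_rot (X := X) (M := M) hc) (nodeL x)) n
    have h3 := (NN_cons (X := X) (M := M) hc L.toFinset x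
      (fun h => hx (List.mem_toFinset.1 h))).EE C n
    rw [h1, ih hL, ← h2, h3, List.toFinset_cons]

/-- (d) all crossings active -/
theorem NN_univ : PS.Iso (PS.relabel kap (NN (X := X) (M := M) hc Finset.univ))
    (PS.plus (KK0 hc []) (CN X M)) := by
  let j : V ⊕ (X × Fin 4 ⊕ M × Fin 2) ≃ X × Fin 4 ⊕ M × Fin 2 ⊕ V := kap.symm
  let e : Empty ⊕ X ≃ X := Equiv.emptySum Empty X
  refine PS.Iso.of_equiv (A := PS.relabel kap (NN (X := X) (M := M) hc Finset.univ))
    (B := PS.plus (KK0 hc []) (CN X M)) j e ?_ ?_ ?_ ?_ ?_ ?_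
  · intro s f
    constructor
    · rintro ⟨h1, h2, h3⟩
      exact ⟨h3, h1, h2⟩
    · rintro ⟨h3, h1, h2⟩
      exact ⟨h1, h2, h3⟩
  · rintro (y | y)
    · exact Empty.elim y
    · rfl
  · rintro (y | y)
    · exact Empty.elim y
    · rfl
  · rintro (v | p) <;> rfl
  · rintro (y | y)
    · exact Empty.elim y
    · exact ⟨fun _ => Finset.inr_mem_disjSum.2 (Finset.mem_univ _), fun _ => Finset.mem_univ _⟩
  · rintro (y | y)
    · exact Empty.elim y
    · rfl

/-- The letters at the vertices. -/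
def vL (a : AL V) : AL (X × Fin 4 ⊕ M × Fin 2 ⊕ V) := ⟨Sum.inr (Sum.inr a.v), a.b, a.fr⟩

theorem toL_vL (a : AL V) : (AL.toL (colN_rot (X := X) (M := M) hc) (vL a)).map kap
    kap.injective = (AL.toL hc a).map Sum.inl Sum.inl_injective := rfl

/-- (e) letters at the vertices -/
theorem relabel_word {B : PS (X × Fin 4 ⊕ M × Fin 2 ⊕ V)} {B' : PS V}
    {E : PS (X × Fin 4 ⊕ M × Fin 2)} (h : PS.Iso (PS.relabel kap B) (PS.plus B' E))
    (W : List (AL V)) :
    PS.Iso (PS.relabel kap (PS.attachW B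
      ((W.map vL).map (AL.toL (colN_rot (X := X) (M := M) hc)))))
      (PS.plus (PS.attachW B' (W.map (AL.toL hc))) E) := by
  induction W with
  | nil => exact h
  | cons a W ih =>
    have h1 := PS.attach_relabel kap (PS.attachW B
      ((W.map vL).map (AL.toL (colN_rot (X := X) (M := M) hc))))
      (AL.toL (colN_rot (X := X) (M := M) hc) (vL a))
    have h2 := ih.attach ((AL.toL (colN_rot (X := X) (M := M) hc) (vL a)).map kap kap.injective)
    have h3 := PS.plus_attach_left (PS.attachW B' (W.map (AL.toL hc))) E (AL.toL hc a)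
    exact h1.trans (h2.trans h3)

/-- (J3) Closing `capall Z`. -/
theorem EE_capall {next : Equiv.Perm V} {c : V → Bool} (hc : ∀ v, c (next v) = !c v)
    (L : List X) (hn : L.Nodup) (hL : ∀ x, x ∈ L) (W : List (AL V))
    (Z : PS (X × Fin 4 ⊕ M × Fin 2 ⊕ V)) (n : ℤ) :
    PS.EE (capall Z) (KK0 hc W) n ↔
      PS.EE Z (KK0 (colN_rot (X := X) (M := M) hc) (nodeW W L)) n := by
  have hu : L.toFinset = Finset.univ :=
    Finset.eq_univ_iff_forall.2 (fun x => List.mem_toFinset.2 (hL x))
  -- the word of the nodes replaced by `NN`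
  have hW : KK0 (colN_rot (X := X) (M := M) hc) (nodeW W L) =
      PS.attachW (KK0 (colN_rot (X := X) (M := M) hc) (L.map nodeL))
        ((W.map vL).map (AL.toL (colN_rot (X := X) (M := M) hc))) := by
    show PS.attachW _ ((W.map vL ++ L.map nodeL).map _) = _
    rw [List.map_append, PS.attachW_append]
    rfl
  have h1 : PS.EE Z (KK0 (colN_rot (X := X) (M := M) hc) (nodeW W L)) n ↔
      PS.EE Z (PS.attachW (NN (X := X) (M := M) hc Finset.univ)
        ((W.map vL).map (AL.toL (colN_rot (X := X) (M := M) hc)))) n := by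
    rw [hW]
    set w := (W.map vL).map (AL.toL (colN_rot (X := X) (M := M) hc)) with hw
    have k1 := PS.EE_attachW Z (KK0 (colN_rot (X := X) (M := M) hc) (L.map nodeL)) w.reverse n
    have k2 := PS.EE_attachW Z (NN (X := X) (M := M) hc Finset.univ) w.reverse n
    rw [List.reverse_reverse] at k1 k2
    rw [← k1, ← k2, PS.EE_symm, PS.EE_symm _ (NN (X := X) (M := M) hc Finset.univ)]
    rw [← hu]
    exact EE_NN hc L hn _ n
  have h2 := relabel_word (X := X) (M := M) hc (NN_univ (X := X) (M := M) hc) W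
  have h3 : PS.EE (PS.relabel kap Z) (PS.relabel kap (PS.attachW
      (NN (X := X) (M := M) hc Finset.univ)
        ((W.map vL).map (AL.toL (colN_rot (X := X) (M := M) hc))))) n ↔
      PS.EE (PS.relabel kap Z) (PS.plus (KK0 hc W) (CN X M)) n := by
    rw [PS.EE_symm, PS.EE_symm (PS.relabel kap Z)]
    exact h2.EE _ n
  rw [h1, ← PS.EE_relabel kap Z, h3]
  exact (PS.EE_plus _ _ _ n).symm

end

end Nodes

end Spg
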