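import Pool.Agent.H85.SpgTopDefs
import Pool.Agent.H85.SpgIns

/-!
# Chain property of isomorphisms and of the insertion of markers (layer M10)
-/

set_option linter.unusedSectionVars false

open Function

namespace Spg

/-! ### Relabelling the standard closings -/

section

variable {N N' : Type} [Fintype N] [DecidableEq N] [Fintype N'] [DecidableEq N']
  {next : Equiv.Perm N} {next' : Equiv.Perm N'}

theorem mu_relabel (e : N' ≃ N) (he : ∀ v, e (next' v) = next (e v)) (c : N → Bool) (v : N) :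
    e.symm (mu next c v) = mu next' (c ∘ e) (e.symm v) := by
  unfold mu
  have h1 : (c ∘ e) (e.symm v) = c v := by simp
  rw [h1]
  split_ifs with h
  · rw [Equiv.symm_apply_eq, he, Equiv.apply_symm_apply]
  · rw [Equiv.symm_apply_eq]
    have h2 := he (next'.symm (e.symm v))
    rw [Equiv.apply_symm_apply, Equiv.apply_symm_apply] at h2
    exact (Equiv.symm_apply_eq _).2 h2

theorem toL_relabel (e : N' ≃ N) (he : ∀ v, e (next' v) = next (e v)) {c : N → Bool}
    (hc : ∀ v, c (next v) = !c v) (hc' : ∀ v, (c ∘ e) (next' v) = !(c ∘ e) v) (a : AL N') :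
    (AL.toL hc' a).map e e.injective = AL.toL hc ⟨e a.v, a.b, a.fr⟩ := by
  unfold AL.toL Letter.map
  simp only [he]

theorem KK0_relabel (e : N' ≃ N) (he : ∀ v, e (next' v) = next (e v)) {c : N → Bool}
    (hc : ∀ v, c (next v) = !c v) (hc' : ∀ v, (c ∘ e) (next' v) = !(c ∘ e) v) (W : List (AL N')) :
    PS.Iso (PS.relabel e (KK0 hc' W)) (KK0 hc (W.map (fun a => ⟨e a.v, a.b, a.fr⟩))) := by
  induction W with
  | nil =>
    refine ⟨e.symm, id, ?_⟩
    refine ⟨injective_id, fun x => x.elim, fun x => x.elim, ?_, ?_, ?_, ?_, ?_⟩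
    · intro s _ f hf
      have hf' : ∀ l, f (mu next' (c ∘ e) l) = f l := hf
      show ∀ l, f (e.symm (mu next c l)) = f (e.symm l)
      intro l
      rw [mu_relabel e he c l]
      exact hf' _
    · intro s _ f _ h
      funext p
      exact (congrArg f (Equiv.symm_apply_apply e p)).symm.trans (h (e p))
    · intro s _ g hg
      have hg' : ∀ l, g (mu next c l) = g l := hg
      refine ⟨fun p => g (e p), ?_, fun p => ?_⟩
      · show ∀ l, g (e (mu next' (c ∘ e) l)) = g (e l)
        intro l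
        have h1 := mu_relabel e he c (e l)
        rw [Equiv.symm_apply_apply] at h1
        rw [← h1, Equiv.apply_symm_apply]
        exact hg' _
      · exact congrArg g (Equiv.apply_symm_apply e p)
    · intro s _ y
      exact y.elim
    · intro s _ f _ l
      rfl
  | cons a W ih =>
    have h1 := PS.attach_relabel e (KK0 hc' W) (AL.toL hc' a)
    have h2 := PS.Iso.attach ih ((AL.toL hc' a).map e e.injective)
    have h3 := PS.Iso.trans h1 h2
    rw [toL_relabel e he hc hc'] at h3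
    exact h3

end

namespace Diagram

/-! ### Isomorphisms -/

theorem sm_add_two (b : Bool) (i : Fin 4) : sm b (i + 2) = sm b i + 2 := by
  revert b i; decide

theorem IsIso.crossing {G H : Diagram} {φ : G.End ≃ H.End} (h : IsIso G H φ) (x : G.X) :
    ∃ y, (∀ i, φ (Sum.inl (x, i)) = Sum.inl (y, i)) ∨
      (∀ i, φ (Sum.inl (x, i)) = Sum.inl (y, i + 2)) := by
  have step : ∀ (y : H.X) (i j : Fin 4), φ (Sum.inl (x, i)) = Sum.inl (y, j) →
      φ (Sum.inl (x, i + 1)) = Sum.inl (y, j + 1) := by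
    intro y i j hij
    have := h.rot (Sum.inl (x, i))
    rw [rot_crossing, hij, rot_crossing] at this
    exact this
  obtain ⟨y, hy | hy⟩ := h.under x
  · refine ⟨y, Or.inl ?_⟩
    have h1 := step y 0 0 hy
    have h2 := step y _ _ h1
    have h3 := step y _ _ h2
    intro i
    fin_cases i
    · exact hy
    · exact h1
    · exact h2
    · exact h3
  · refine ⟨y, Or.inr ?_⟩
    have h1 := step y 0 2 hy
    have h2 := step y _ _ h1
    have h3 := step y _ _ h2
    intro i
    fin_cases i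
    · exact hy
    · exact h1
    · exact h2
    · exact h3

theorem IsIso.mark {G H : Diagram} {φ : G.End ≃ H.End} (h : IsIso G H φ) (m : G.M) :
    ∃ m' k, ∀ i, φ (Sum.inr (Sum.inl (m, i))) = Sum.inr (Sum.inl (m', i + k)) := by
  obtain ⟨m', k, hk⟩ := h.marker m
  refine ⟨m', k, ?_⟩
  have h1 := h.rot (Sum.inr (Sum.inl (m, 0)))
  rw [rot_marker, hk, rot_marker] at h1
  intro i
  fin_cases i
  · show φ (Sum.inr (Sum.inl (m, 0))) = Sum.inr (Sum.inl (m', 0 + k))
    rw [hk, zero_add]
  · show φ (Sum.inr (Sum.inl (m, 1))) = Sum.inr (Sum.inl (m', 1 + k))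
    rw [add_comm 1 k]
    exact h1

theorem IsIso.surjX {G H : Diagram} {φ : G.End ≃ H.End} (h : IsIso G H φ) (y : H.X) :
    ∃ x, (∀ i, φ (Sum.inl (x, i)) = Sum.inl (y, i)) ∨
      (∀ i, φ (Sum.inl (x, i)) = Sum.inl (y, i + 2)) := by
  obtain ⟨p, hp⟩ := φ.surjective (Sum.inl (y, 0))
  rcases p with ⟨x, i⟩ | ⟨m, i⟩ | v
  · obtain ⟨y', hy'⟩ := h.crossing x
    have : y' = y := by
      rcases hy' with hy' | hy'
      · rw [hy' i] at hp
        exact congrArg Prod.fst (Sum.inl.inj hp)
      · rw [hy' i] at hp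
        exact congrArg Prod.fst (Sum.inl.inj hp)
    subst this
    exact ⟨x, hy'⟩
  · obtain ⟨m', k, hk⟩ := h.mark m
    rw [hk i] at hp
    exact absurd hp (by simp)
  · obtain ⟨w, hw⟩ := h.vertex v
    rw [hw] at hp
    exact absurd hp (by simp)

theorem IsIso.surjM {G H : Diagram} {φ : G.End ≃ H.End} (h : IsIso G H φ) (m' : H.M) :
    ∃ m k, ∀ i, φ (Sum.inr (Sum.inl (m, i))) = Sum.inr (Sum.inl (m', i + k)) := by
  obtain ⟨p, hp⟩ := φ.surjective (Sum.inr (Sum.inl (m', 0)))
  rcases p with ⟨x, i⟩ | ⟨m, i⟩ | v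
  · obtain ⟨y', hy' | hy'⟩ := h.crossing x
    · rw [hy' i] at hp
      exact absurd hp (by simp)
    · rw [hy' i] at hp
      exact absurd hp (by simp)
  · obtain ⟨m'', k, hk⟩ := h.mark m
    rw [hk i] at hp
    have : m'' = m' := congrArg Prod.fst (Sum.inl.inj (Sum.inr.inj hp))
    subst this
    exact ⟨m, k, hk⟩
  · obtain ⟨w, hw⟩ := h.vertex v
    rw [hw] at hp
    exact absurd hp (by simp)

theorem IsIso.surjV {G H : Diagram} {φ : G.End ≃ H.End} (h : IsIso G H φ) (w : H.V) :
    ∃ v, φ (Sum.inr (Sum.inr v)) = Sum.inr (Sum.inr w) := by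
  obtain ⟨p, hp⟩ := φ.surjective (Sum.inr (Sum.inr w))
  rcases p with ⟨x, i⟩ | ⟨m, i⟩ | v
  · obtain ⟨y', hy' | hy'⟩ := h.crossing x
    · rw [hy' i] at hp
      exact absurd hp (by simp)
    · rw [hy' i] at hp
      exact absurd hp (by simp)
  · obtain ⟨m'', k, hk⟩ := h.mark m
    rw [hk i] at hp
    exact absurd hp (by simp)
  · exact ⟨v, hp⟩

theorem IsIso.isoData {G H : Diagram} {φ : G.End ≃ H.End} (h : IsIso G H φ) (e : H.V ≃ G.V)
    (he : ∀ v, φ (Sum.inr (Sum.inr v)) = Sum.inr (Sum.inr (e.symm v))) :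
    PS.Iso (PS.relabel e H.toPS) G.toPS := by
  choose fX hfX using h.crossing
  have hinj : Injective fX := by
    intro x x' hxx
    have key : ∃ i, φ (Sum.inl (x, i)) = φ (Sum.inl (x', 0)) := by
      rcases hfX x with h1 | h1 <;> rcases hfX x' with h2 | h2
      · exact ⟨0, by rw [h1, h2, hxx]⟩
      · exact ⟨2, by rw [h1, h2, hxx]; rfl⟩
      · exact ⟨2, by rw [h1, h2, hxx]; rfl⟩
      · exact ⟨0, by rw [h1, h2, hxx]⟩
    obtain ⟨i, hi⟩ := key
    exact congrArg Prod.fst (Sum.inl.inj (φ.injective hi))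
  have hsurj : ∀ y, ∃ x, fX x = y := by
    intro y
    obtain ⟨x, hx⟩ := h.surjX y
    refine ⟨x, ?_⟩
    rcases hfX x with h1 | h1 <;> rcases hx with h2 | h2
    · exact congrArg Prod.fst (Sum.inl.inj ((h1 0).symm.trans (h2 0)))
    · exact congrArg Prod.fst (Sum.inl.inj ((h1 0).symm.trans (h2 0)))
    · exact congrArg Prod.fst (Sum.inl.inj ((h1 0).symm.trans (h2 0)))
    · exact congrArg Prod.fst (Sum.inl.inj ((h1 0).symm.trans (h2 0)))
  refine ⟨φ, fX, ?_⟩
  refine ⟨hinj, ?_, ?_, ?_, ?_, ?_, ?_, ?_⟩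
  · intro x
    refine ⟨fun _ => ?_, fun _ => Finset.mem_univ _⟩
    obtain ⟨y, hy⟩ := hsurj x
    exact ⟨y, Finset.mem_univ _, hy⟩
  · intro y hy
    exact absurd (Finset.mem_univ y) hy
  · intro s _ f hf
    obtain ⟨h1, h2, h3⟩ : (∀ d, f (H.glue d) = f d) ∧
        (∀ x i, f (Sum.inl (x, sm (s x) i)) = f (Sum.inl (x, i))) ∧
        (∀ m, f (Sum.inr (Sum.inl (m, 0))) = f (Sum.inr (Sum.inl (m, 1)))) := hf
    refine ⟨fun d => ?_, fun x i => ?_, fun m => ?_⟩
    · show f (φ (G.glue d)) = f (φ d)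
      rw [h.glue, h1]
    · show f (φ (Sum.inl (x, sm (s (fX x)) i))) = f (φ (Sum.inl (x, i)))
      rcases hfX x with h4 | h4
      · rw [h4, h4, h2]
      · rw [h4, h4, ← sm_add_two, h2]
    · show f (φ (Sum.inr (Sum.inl (m, 0)))) = f (φ (Sum.inr (Sum.inl (m, 1))))
      obtain ⟨m', k, hk⟩ := h.mark m
      rw [hk, hk]
      fin_cases k
      · exact h3 m'
      · exact (h3 m').symm
  · intro s _ f _ h0
    funext p
    obtain ⟨q, rfl⟩ := φ.surjective p
    exact h0 q
  · intro s _ g hg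
    obtain ⟨h1, h2, h3⟩ : (∀ d, g (G.glue d) = g d) ∧
        (∀ x i, g (Sum.inl (x, sm (s (fX x)) i)) = g (Sum.inl (x, i))) ∧
        (∀ m, g (Sum.inr (Sum.inl (m, 0))) = g (Sum.inr (Sum.inl (m, 1)))) := hg
    refine ⟨fun p => g (φ.symm p), ⟨fun d => ?_, fun y i => ?_, fun m => ?_⟩, fun p => ?_⟩
    · show g (φ.symm (H.glue d)) = g (φ.symm d)
      obtain ⟨q, rfl⟩ := φ.surjective d
      rw [← h.glue, Equiv.symm_apply_apply, Equiv.symm_apply_apply, h1]
    · show g (φ.symm (Sum.inl (y, sm (s y) i))) = g (φ.symm (Sum.inl (y, i)))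
      obtain ⟨x, rfl⟩ := hsurj y
      rcases hfX x with h4 | h4
      · rw [← h4, ← h4, Equiv.symm_apply_apply, Equiv.symm_apply_apply, h2]
      · have e1 : i = (i + 2) + 2 := by revert i; decide
        have e2 : sm (s (fX x)) i = sm (s (fX x)) (i + 2) + 2 := by
          rw [← sm_add_two, ← e1]
        rw [e2, ← h4]
        conv_rhs => rw [e1, ← h4]
        rw [Equiv.symm_apply_apply, Equiv.symm_apply_apply, h2]
    · show g (φ.symm (Sum.inr (Sum.inl (m, 0)))) = g (φ.symm (Sum.inr (Sum.inl (m, 1))))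
      obtain ⟨m', k, hk⟩ := h.surjM m
      fin_cases k
      · have e0 : φ (Sum.inr (Sum.inl (m', 0))) = Sum.inr (Sum.inl (m, 0)) := hk 0
        have e1 : φ (Sum.inr (Sum.inl (m', 1))) = Sum.inr (Sum.inl (m, 1)) := hk 1
        rw [← e0, ← e1, Equiv.symm_apply_apply, Equiv.symm_apply_apply]
        exact h3 m'
      · have e0 : φ (Sum.inr (Sum.inl (m', 0))) = Sum.inr (Sum.inl (m, 1)) := hk 0
        have e1 : φ (Sum.inr (Sum.inl (m', 1))) = Sum.inr (Sum.inl (m, 0)) := hk 1
        rw [← e0, ← e1, Equiv.symm_apply_apply, Equiv.symm_apply_apply]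
        exact (h3 m').symm
    · exact congrArg g (Equiv.symm_apply_apply φ p)
  · intro s _ y _ f _
    show f (Sum.inl (fX y, 0)) + f (Sum.inl (fX y, 2)) =
      f (φ (Sum.inl (y, 0))) + f (φ (Sum.inl (y, 2)))
    rcases hfX y with h4 | h4
    · rw [h4, h4]
    · rw [h4, h4, add_comm]
      rfl
  · intro s _ f _ l
    show f (Sum.inr (Sum.inr (e.symm l))) = f (φ (Sum.inr (Sum.inr l)))
    rw [he]

theorem CP.of_iso (G H : Diagram) (φ : G.End ≃ H.End) (h : IsIso G H φ) : CP G H := by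
  choose fV hfV using h.vertex
  have hbij : Bijective fV := by
    constructor
    · intro v v' hvv
      have : φ (Sum.inr (Sum.inr v)) = φ (Sum.inr (Sum.inr v')) := by rw [hfV, hfV, hvv]
      exact Sum.inr.inj (Sum.inr.inj (φ.injective this))
    · intro w
      obtain ⟨v, hv⟩ := h.surjV w
      rw [hfV] at hv
      exact ⟨v, Sum.inr.inj (Sum.inr.inj hv)⟩
  let E : G.V ≃ H.V := Equiv.ofBijective fV hbij
  have hE : ∀ v, E v = fV v := fun v => rfl
  have hn : ∀ v, E (G.next v) = H.next (E v) := by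
    intro v
    have h1 := h.rot (Sum.inr (Sum.inr v))
    rw [rot_vertex, hfV, hfV, rot_vertex] at h1
    exact Sum.inr.inj (Sum.inr.inj h1)
  have hn' : ∀ v, E.symm (H.next v) = G.next (E.symm v) := by
    intro v
    rw [Equiv.symm_apply_eq, hn, Equiv.apply_symm_apply]
  refine ⟨E.symm, hn', [], 0, fun a ha => absurd ha List.not_mem_nil, ?_⟩
  intro c hc hc' W n
  rw [add_zero, List.nil_append]
  have i1 : PS.Iso (PS.relabel E.symm H.toPS) G.toPS := h.isoData E.symm (fun v => hfV v)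
  have i2 := KK0_relabel E.symm hn' hc hc' W
  rw [← PS.EE_relabel E.symm, i1.EE, PS.EE_symm, i2.EE, PS.EE_symm]

/-! ### Insertion of a marker -/

theorem insertMarker_glue_emb (G : Diagram) (a d : G.End) :
    (G.insertMarker a).glue (embM d) = if d = a then Sum.inr (Sum.inl (none, 0))
      else if d = G.glue a then Sum.inr (Sum.inl (none, 1)) else embM (G.glue d) :=
  (congrFun (G.insertMarker_glue a) (embM d)).trans (insM_emb G.glue a d)

theorem insertMarker_glue_0 (G : Diagram) (a : G.End) :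
    (G.insertMarker a).glue (Sum.inr (Sum.inl (none, 0))) = embM a :=
  congrFun (G.insertMarker_glue a) (Sum.inr (Sum.inl (none, 0)))

theorem insertMarker_glue_1 (G : Diagram) (a : G.End) :
    (G.insertMarker a).glue (Sum.inr (Sum.inl (none, 1))) = embM (G.glue a) :=
  congrFun (G.insertMarker_glue a) (Sum.inr (Sum.inl (none, 1)))

theorem insertMarker_iso (G : Diagram) (a : G.End) :
    PS.Iso (G.insertMarker a).toPS G.toPS := by
  refine ⟨embM, id, injective_id, ?_, ?_, ?_, ?_, ?_, ?_, ?_⟩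
  · intro x
    exact ⟨fun _ => ⟨x, Finset.mem_univ _, rfl⟩, fun _ => Finset.mem_univ _⟩
  · intro y hy
    exact absurd (Finset.mem_univ y) hy
  · intro s _ f hf
    obtain ⟨h1, h2, h3⟩ : (∀ d, f ((G.insertMarker a).glue d) = f d) ∧
        (∀ x i, f (Sum.inl (x, sm (s x) i)) = f (Sum.inl (x, i))) ∧
        (∀ m, f (Sum.inr (Sum.inl (m, 0))) = f (Sum.inr (Sum.inl (m, 1)))) := hf
    have k0 : f (embM a) = f (Sum.inr (Sum.inl (none, 0))) :=
      (congrArg f (G.insertMarker_glue_0 a)).symm.trans (h1 (Sum.inr (Sum.inl (none, 0))))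
    have k1 : f (embM (G.glue a)) = f (Sum.inr (Sum.inl (none, 1))) :=
      (congrArg f (G.insertMarker_glue_1 a)).symm.trans (h1 (Sum.inr (Sum.inl (none, 1))))
    have k2 : f (embM (G.glue a)) = f (embM a) := k1.trans ((h3 none).symm.trans k0.symm)
    refine ⟨fun d => ?_, fun x i => h2 x i, fun m => h3 (some m)⟩
    show f (embM (G.glue d)) = f (embM d)
    by_cases c1 : d = a
    · rw [c1, k2]
    · by_cases c2 : d = G.glue a
      · rw [c2, k2, show G.glue (G.glue a) = a from G.tan.glue_glue a]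
      · have := h1 (embM d)
        rw [insertMarker_glue_emb, if_neg c1, if_neg c2] at this
        exact this
  · intro s _ f hf h0
    obtain ⟨h1, h2, h3⟩ : (∀ d, f ((G.insertMarker a).glue d) = f d) ∧
        (∀ x i, f (Sum.inl (x, sm (s x) i)) = f (Sum.inl (x, i))) ∧
        (∀ m, f (Sum.inr (Sum.inl (m, 0))) = f (Sum.inr (Sum.inl (m, 1)))) := hf
    have h0' : ∀ p, f (embM p) = 0 := h0
    funext p
    rcases embM_cov p with ⟨e, rfl⟩ | rfl | rfl
    · exact h0' e
    · exact (h1 (Sum.inr (Sum.inl (none, 0)))).symm.trans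
        ((congrArg f (G.insertMarker_glue_0 a)).trans (h0' a))
    · exact (h1 (Sum.inr (Sum.inl (none, 1)))).symm.trans
        ((congrArg f (G.insertMarker_glue_1 a)).trans (h0' (G.glue a)))
  · intro s _ g hg
    obtain ⟨h1, h2, h3⟩ : (∀ d, g (G.glue d) = g d) ∧
        (∀ x i, g (Sum.inl (x, sm (s x) i)) = g (Sum.inl (x, i))) ∧
        (∀ m, g (Sum.inr (Sum.inl (m, 0))) = g (Sum.inr (Sum.inl (m, 1)))) := hg
    let f : (G.X × Fin 4 ⊕ Option G.M × Fin 2 ⊕ G.V) → ZMod 2 := fun p =>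
      match p with
      | Sum.inl p => g (Sum.inl p)
      | Sum.inr (Sum.inl (some m, i)) => g (Sum.inr (Sum.inl (m, i)))
      | Sum.inr (Sum.inl (none, _)) => g a
      | Sum.inr (Sum.inr v) => g (Sum.inr (Sum.inr v))
    have hf : ∀ e : G.End, f (embM e) = g e := by rintro (p | ⟨m, i⟩ | v) <;> rfl
    have hf0 : ∀ i, f (Sum.inr (Sum.inl (none, i))) = g a := fun i => rfl
    have key : ∀ e : G.End, f (if e = a then Sum.inr (Sum.inl (none, 0))
        else if e = G.glue a then Sum.inr (Sum.inl (none, 1)) else embM (G.glue e)) = g e := by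
      intro e
      split_ifs with c1 c2
      · exact (hf0 0).trans (by rw [c1])
      · exact (hf0 1).trans (by rw [c2, h1])
      · rw [hf, h1]
    refine ⟨f, ⟨fun d => ?_, fun x i => h2 x i, fun m => ?_⟩, hf⟩
    · show f ((G.insertMarker a).glue d) = f d
      obtain ⟨e, rfl⟩ | rfl | rfl := embM_cov (X := G.X) (M := G.M) (V := G.V) d
      · exact ((congrArg f (insertMarker_glue_emb G a e)).trans (key e)).trans (hf e).symm
      · exact (congrArg f (G.insertMarker_glue_0 a)).trans ((hf a).trans (hf0 0).symm)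
      · exact (congrArg f (G.insertMarker_glue_1 a)).trans
          (((hf (G.glue a)).trans (h1 a)).trans (hf0 1).symm)
    · rcases m with _ | m
      · rfl
      · exact h3 m
  · intro s _ y _ f _
    rfl
  · intro s _ f _ l
    rfl

theorem CP.of_marker (G : Diagram) (a : G.End) : CP G (G.insertMarker a) := by
  refine ⟨Equiv.refl _, fun v => rfl, [], 0, fun a ha => absurd ha List.not_mem_nil, ?_⟩
  intro c hc hc' W n
  rw [add_zero, List.nil_append]
  have key : ∀ W' : List (AL G.V), W' = W → (PS.EE (G.insertMarker a).toPS (KK0 hc W) n ↔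
      PS.EE G.toPS (KK0 hc W') n) := by
    rintro W' rfl
    exact (G.insertMarker_iso a).EE (KK0 hc W') n
  refine key _ ?_
  exact List.map_id W

end Diagram

end Spg
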